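import Mathlib

namespace Pool.Agent.Results.MP_121ed1_lc.Scheme
open Relation MeasureTheory ProbabilityTheory Classical

variable {V : Type} (E W : V → V → Prop)

/-- sources: vertices of in-degree `0` -/
def Src (v : V) : Prop := ∀ u, ¬ E u v

/-- `(u,v)` is an edge outside the secrecy closure of the wiretapped set `W` -/
def Clean (u v : V) : Prop :=
  E u v ∧ ¬ W u v ∧ ∃ s, Src E s ∧ ReflTransGen (fun a b => E a b ∧ ¬ W a b) s u

def R (s v : V) : Prop := Src E s ∧ ReflTransGen (fun a b => E a b ∧ ¬ W a b) s v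

def K (s t v : V) : Prop := ∃ u, ReflTransGen E u v ∧ R E W s u ∧ R E W t u

noncomputable def y (x : V → ℝ) (v w : V) : V ⊕ V × V → ℝ
  | .inl s => if R E W s v ∧ ¬ W v w then x s else 0
  | .inr p => if K E W p.1 p.2 v then x p.1 - x p.2 else 0

noncomputable def rd (v s : V) (z : ({u // E u v} → V ⊕ V × V → ℝ) × ℝ) : ℝ :=
  if s = v then z.2 else
    if h : ∃ u : {u // E u v}, R E W s u ∧ ¬ W u v then z.1 h.choose (.inl s) else 0

noncomputable def df (v s t : V) (z : ({u // E u v} → V ⊕ V × V → ℝ) × ℝ) : ℝ :=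
  if R E W s v ∧ R E W t v then rd E W v s z - rd E W v t z else
    if h : ∃ u : {u // E u v}, K E W s t u then z.1 h.choose (.inr (s, t)) else 0

lemma rd_meas (v s : V) : Measurable (rd E W v s) := by
  unfold rd; split_ifs <;> fun_prop

lemma df_meas (v s t : V) : Measurable (df E W v s t) := by
  have := rd_meas E W v
  unfold df; split_ifs <;> fun_prop

lemma rd_eq (x : V → ℝ) {v s : V} (h : R E W s v) :
    rd E W v s (fun u => y E W x u v, x v) = x s := by
  unfold rd
  split_ifs with h1 h2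
  · rw [h1]
  · exact if_pos h2.choose_spec
  · rcases h.2.cases_tail with h3 | ⟨u, h3, h4⟩
    · exact absurd h3.symm h1
    · exact absurd ⟨⟨u, h4.1⟩, ⟨h.1, h3⟩, h4.2⟩ h2

lemma df_eq (x : V → ℝ) {v s t : V} (h : K E W s t v) :
    df E W v s t (fun u => y E W x u v, x v) = x s - x t := by
  unfold df
  split_ifs with h1 h2
  · rw [rd_eq E W x h1.1, rd_eq E W x h1.2]
  · exact if_pos h2.choose_spec
  · obtain ⟨u, h3, h4⟩ := h
    rcases h3.cases_tail with rfl | ⟨w, h5, h6⟩
    · exact absurd h4 h1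
    · exact absurd ⟨⟨w, h6⟩, u, h5, h4⟩ h2

noncomputable def f (v w : V) (z : ({u // E u v} → V ⊕ V × V → ℝ) × ℝ) : V ⊕ V × V → ℝ
  | .inl s => if R E W s v ∧ ¬ W v w then rd E W v s z else 0
  | .inr p => if K E W p.1 p.2 v then df E W v p.1 p.2 z else 0

lemma f_meas (v w : V) : Measurable (f E W v w) := by
  refine measurable_pi_lambda _ fun i => ?_
  have := rd_meas E W v
  have := df_meas E W v
  rcases i with s | p <;> simp only [f] <;> split_ifs <;> fun_prop

lemma f_eq (x : V → ℝ) (v w : V) : y E W x v w = f E W v w (fun u => y E W x u v, x v) := by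
  ext i
  rcases i with s | p <;> simp only [f, y] <;> split_ifs with h
  · exact (rd_eq E W x h.1).symm
  · rfl
  · exact (df_eq E W x h).symm
  · rfl

def C (d s : V) : Prop := ∃ g : ({u // E u d} → V ⊕ V × V → ℝ) → ℝ, Measurable g ∧
  ∀ x : V → ℝ, x d = 0 → g (fun u => y E W x u d) = x s

lemma comp {d : V} (hr : ∀ v, ReflTransGen E v d) {a b : V} (h : EqvGen (Clean E W) a b) :
    (∀ s, R E W s a → C E W d s) ↔ ∀ s, R E W s b → C E W d s := by
  induction h with
  | rel u v h =>
    obtain ⟨h1, h2, s₀, h3⟩ := h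
    refine ⟨fun H s hs => ?_, fun H s hs => H s ⟨hs.1, hs.2.tail ⟨h1, h2⟩⟩⟩
    obtain ⟨g, g1, g2⟩ := H s₀ h3
    have := df_meas E W d s s₀
    refine ⟨fun z => df E W d s s₀ (z, 0) + g z, by fun_prop, fun x hx => ?_⟩
    have := df_eq E W x (show K E W s s₀ d from ⟨v, hr v, hs, h3.1, h3.2.tail ⟨h1, h2⟩⟩)
    rw [hx] at this
    simp only [this, g2 x hx]; ring
  | refl => rfl
  | symm _ _ _ ih => exact ih.symm
  | trans _ _ _ _ _ ih1 ih2 => exact ih1.trans ih2

lemma indep {S Ω : Type} [Fintype S] [MeasurableSpace Ω] (P : Measure Ω) (X : S → Ω → ℝ)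
    (hX : ∀ s, HasLaw (X s) (gaussianReal 0 1) P) (hi : iIndepFun X P) :
    IndepFun (fun ω (p : S × S) => X p.1 ω - X p.2 ω) (fun ω (_ : Unit) => ∑ s, X s ω) P := by
  have := hi.isProbabilityMeasure
  have hG := hi.hasGaussianLaw fun s => (hX s).hasGaussianLaw
  have hL : ∀ s, MemLp (X s) 2 P := fun s => (hX s).hasGaussianLaw.memLp_two
  have cv : ∀ s, ∑ u, cov[X s, X u; P] = 1 := fun s => by
    rw [Finset.sum_eq_single s (fun u _ hu =>
      (hi.indepFun hu.symm).covariance_eq_zero (hL s) (hL u)) (by simp),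
      covariance_self (hX s).aemeasurable, (hX s).variance_eq]
    simp
  refine HasGaussianLaw.indepFun_of_covariance_eval (X := fun (p : S × S) ω => X p.1 ω - X p.2 ω)
    (Y := fun (_ : Unit) ω => ∑ s, X s ω) ?_ fun p _ => ?_
  · simpa using hG.map_fun ((ContinuousLinearMap.pi fun p : S × S =>
      (ContinuousLinearMap.proj p.1 : (S → ℝ) →L[ℝ] ℝ) -
        (ContinuousLinearMap.proj p.2 : (S → ℝ) →L[ℝ] ℝ)).prod
      (ContinuousLinearMap.pi fun _ : Unit =>
        ∑ s, (ContinuousLinearMap.proj s : (S → ℝ) →L[ℝ] ℝ)))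
  · rw [covariance_fun_sub_left (hL _) (hL _) (memLp_finsetSum _ fun s _ => hL s),
      covariance_fun_sum_right hL (hL _), covariance_fun_sum_right hL (hL _), cv, cv, sub_self]

theorem result {V : Type} [Fintype V] [Nontrivial V] (E W : V → V → Prop) (d : V)
    (_hW : ∀ u v, W u v → E u v) (hacyc : ∀ v, ¬ TransGen E v v) (_hconn : ∀ u v, EqvGen E u v)
    (hd : ∀ v, (∀ w, ¬ E v w) ↔ v = d) (hC : ∀ s, Src E s → EqvGen (Clean E W) s d) :
    ∃ (ι : Type) (_ : Finite ι) (f : ∀ v, V → ({u // E u v} → ι → ℝ) × ℝ → ι → ℝ)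
      (g : ({u // E u d} → ι → ℝ) → ℝ), (∀ v w, Measurable (f v w)) ∧ Measurable g ∧
      ∀ (Ω : Type) [MeasurableSpace Ω] (P : Measure Ω) (X : {s // Src E s} → Ω → ℝ),
        (∀ s, HasLaw (X s) (gaussianReal 0 1) P) → iIndepFun X P →
        ∃ Y : V → V → Ω → ι → ℝ,
          (∀ v w, E v w → ∀ ω, Y v w ω =
            f v w (fun u => Y u v ω, if h : Src E v then X ⟨v, h⟩ ω else 0)) ∧
          (∀ ω, g (fun u => Y u d ω) = ∑ s, X s ω) ∧
          IndepFun (fun ω (e : {e : V × V // W e.1 e.2}) => Y e.1.1 e.1.2 ω)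
            (fun ω => ∑ s, X s ω) P := by
  have hr : ∀ v, ReflTransGen E v d := by
    have : IsTrans V (fun a b => TransGen E b a) := ⟨fun _ _ _ h1 h2 => h2.trans h1⟩
    have : Std.Irrefl (fun a b => TransGen E b a) := ⟨hacyc⟩
    intro v
    induction v using (Finite.wellFounded_of_trans_of_irrefl fun a b => TransGen E b a).induction with
    | _ v ih =>
      by_cases h : ∀ w, ¬ E v w
      · rw [(hd v).1 h]
      · push Not at h
        obtain ⟨w, hw⟩ := h
        exact (ih w (.single hw)).head hw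
  have hds : ¬ Src E d := fun h => by
    obtain ⟨v, hv⟩ := exists_ne d
    rcases (hr v).cases_tail with h1 | ⟨u, -, h1⟩
    · exact hv h1.symm
    · exact h u h1
  have hc : ∀ s : {s // Src E s}, C E W d s := fun s =>
    (comp E W hr (hC s s.2)).2 (fun t ht => ⟨fun z => rd E W d t (z, 0),
      (rd_meas E W d t).comp (by fun_prop), fun x hx => by
        have := rd_eq E W x ht
        rwa [hx] at this⟩) s ⟨s.2, .refl⟩
  choose g g1 g2 using hc
  refine ⟨V ⊕ V × V, inferInstance, f E W, fun z => ∑ s, g s z, f_meas E W, by fun_prop,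
    fun Ω _ P X hX hi => ⟨fun v w ω => y E W (fun v => if h : Src E v then X ⟨v, h⟩ ω else 0) v w,
      fun v w _ ω => f_eq E W _ v w, fun ω => Finset.sum_congr rfl fun s _ => ?_, ?_⟩⟩
  · rw [g2 s _ (dif_neg hds), dif_pos s.2]
  · let φ : ({s // Src E s} × {s // Src E s} → ℝ) → {e : V × V // W e.1 e.2} → V ⊕ V × V → ℝ :=
      fun δ e i => i.elim (fun _ => 0) fun p => if h : K E W p.1 p.2 e.1.1 then
        δ (⟨p.1, h.choose_spec.2.1.1⟩, ⟨p.2, h.choose_spec.2.2.1⟩) else 0
    have hφ : Measurable φ := by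
      refine measurable_pi_lambda _ fun e => measurable_pi_lambda _ fun i => ?_
      rcases i with s | p <;> simp only [φ, Sum.elim_inl, Sum.elim_inr]
      · fun_prop
      · split_ifs <;> fun_prop
    convert (indep P X hX hi).comp hφ (measurable_pi_apply ()) using 1
    · ext ω e i
      rcases i with s | p <;> simp only [φ, y, Function.comp, Sum.elim_inl, Sum.elim_inr]
      · exact if_neg fun h => h.2 e.2
      · split_ifs with h h1 h2 h2
        · rfl
        · exact absurd h.choose_spec.2.2.1 h2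
        · exact absurd h.choose_spec.2.1.1 h1
        · exact absurd h.choose_spec.2.1.1 h1
        · rfl
    · rfl

end Pool.Agent.Results.MP_121ed1_lc.Scheme
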